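import Pool.Agent.TH107.RF.Pure
import Pool.Agent.TH107.RF.Conv

set_option autoImplicit false

namespace Pool.Agent.Results.MP_61f49c_al.PureTorsionFreeNilpotent

/-- The Artin group of a finite Coxeter matrix; an entry `0` stands for the label infinity, that is,
for no relation. -/
abbrev ArtinGroup {n : ℕ} (M : CoxeterMatrix (Fin n)) : Type :=
  PresentedGroup
    {r : FreeGroup (Fin n) | ∃ i j : Fin n, M.M i j ≠ 0 ∧
      r = ((List.range (M.M i j)).map
              (fun k => if Even k then FreeGroup.of i else FreeGroup.of j)).prod *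
          (((List.range (M.M i j)).map
              (fun k => if Even k then FreeGroup.of j else FreeGroup.of i)).prod)⁻¹}

/-- For every Artin group in which no three distinct generators `i, j, k` have `m_ij` and `m_jk`
finite and at least three and `m_ik` finite, the pure Artin group, that is, the kernel of the
homomorphism `π` to the Coxeter group, is residually torsion-free nilpotent: every `g ≠ 1` lies
outside a normal subgroup `K` of the Artin group contained in the kernel of `π` such that the
quotient of the kernel of `π` by `K` is nilpotent and torsion-free. -/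
theorem result : ∀ (n : ℕ) (M : CoxeterMatrix (Fin n)),
    (∀ i j k : Fin n, i ≠ k → 3 ≤ M.M i j → 3 ≤ M.M j k → M.M i k = 0) →
    ∃ π : ArtinGroup M →* M.Group, (∀ i : Fin n, π (PresentedGroup.of i) = M.simple i) ∧
      ∀ g : ArtinGroup M, g ≠ 1 →
        ∃ (K : Subgroup (ArtinGroup M)) (_ : K.Normal), K ≤ π.ker ∧ g ∉ K ∧
          Group.IsNilpotent (π.ker ⧸ K.subgroupOf π.ker) ∧
          ∀ h ∈ π.ker, ∀ m : ℕ, m ≠ 0 → h ^ m ∈ K → h ∈ K := by
  intro n M hR
  have key : ∀ R : Set (FreeGroup (Fin n)), R = Pool.Agent.TH107.RF.rels M →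
      ∃ π : PresentedGroup R →* M.Group, (∀ i : Fin n, π (PresentedGroup.of i) = M.simple i) ∧
        ∀ g : PresentedGroup R, g ≠ 1 →
          ∃ (K : Subgroup (PresentedGroup R)) (_ : K.Normal), K ≤ π.ker ∧ g ∉ K ∧
            Group.IsNilpotent (π.ker ⧸ K.subgroupOf π.ker) ∧
            ∀ h ∈ π.ker, ∀ m : ℕ, m ≠ 0 → h ^ m ∈ K → h ∈ K := by
    rintro R rfl
    exact ⟨Pool.Agent.TH107.RF.toCox M, fun i => Pool.Agent.TH107.RF.toCox_sg M i,
      fun g hg => Pool.Agent.TH107.RF.pure_rtfn hR hg⟩
  exact key _ (Pool.Agent.TH107.RF.rels_eq M)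

end Pool.Agent.Results.MP_61f49c_al.PureTorsionFreeNilpotent
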