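import Pool.Agent.TH107.RF.Conv

set_option autoImplicit false

namespace Pool.Agent.Results.MP_61f49c_al.RankTwoSeparable

/-- The Artin group of a finite Coxeter matrix; an entry `0` stands for the label infinity, that is,
for no relation. -/
abbrev ArtinGroup {n : ℕ} (M : CoxeterMatrix (Fin n)) : Type :=
  PresentedGroup
    {r : FreeGroup (Fin n) | ∃ i j : Fin n, M.M i j ≠ 0 ∧
      r = ((List.range (M.M i j)).map
              (fun k => if Even k then FreeGroup.of i else FreeGroup.of j)).prod *
          (((List.range (M.M i j)).map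
              (fun k => if Even k then FreeGroup.of j else FreeGroup.of i)).prod)⁻¹}

/-- The standard parabolic subgroup generated by a set `X` of standard generators. -/
def Parabolic {n : ℕ} (M : CoxeterMatrix (Fin n)) (X : Set (Fin n)) : Subgroup (ArtinGroup M) :=
  Subgroup.closure ((fun i : Fin n => (PresentedGroup.of i : ArtinGroup M)) '' X)

/-- For every Artin group in which no three distinct generators `i, j, k` have `m_ij` and `m_jk`
finite and at least three and `m_ik` finite, and for every prime `p`, there is a normal subgroup `N`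
of finite index such that every standard parabolic subgroup is closed in the topology given by the
normal subgroups `K ≤ N` of finite index with `N / K` a `p`-group. For `X` empty the parabolic
subgroup is trivial, so `N` is residually a finite `p`-group. -/
theorem result : ∀ (n : ℕ) (M : CoxeterMatrix (Fin n)),
    (∀ i j k : Fin n, i ≠ k → 3 ≤ M.M i j → 3 ≤ M.M j k → M.M i k = 0) →
    ∀ p : ℕ, p.Prime →
      ∃ N : Subgroup (ArtinGroup M), N.Normal ∧ N.FiniteIndex ∧
        ∀ (X : Set (Fin n)) (g : ArtinGroup M), g ∉ Parabolic M X →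
          ∃ K : Subgroup (ArtinGroup M), K.Normal ∧ K.FiniteIndex ∧ K ≤ N ∧
            (∀ h ∈ N, ∃ k : ℕ, h ^ (p ^ k) ∈ K) ∧ g ∉ Parabolic M X ⊔ K := by
  intro n M hR p hp
  unfold Parabolic
  have key : ∀ R : Set (FreeGroup (Fin n)), R = Pool.Agent.TH107.RF.rels M →
      ∃ N : Subgroup (PresentedGroup R), N.Normal ∧ N.FiniteIndex ∧
        ∀ (X : Set (Fin n)) (g : PresentedGroup R),
          g ∉ Subgroup.closure ((fun i : Fin n => (PresentedGroup.of i : PresentedGroup R)) '' X) →
          ∃ K : Subgroup (PresentedGroup R), K.Normal ∧ K.FiniteIndex ∧ K ≤ N ∧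
            (∀ h ∈ N, ∃ k : ℕ, h ^ (p ^ k) ∈ K) ∧
            g ∉ Subgroup.closure
              ((fun i : Fin n => (PresentedGroup.of i : PresentedGroup R)) '' X) ⊔ K := by
    rintro R rfl
    exact Pool.Agent.TH107.RF.sep_main M hR p hp
  exact key _ (Pool.Agent.TH107.RF.rels_eq M)

end Pool.Agent.Results.MP_61f49c_al.RankTwoSeparable
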